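import Pool.Agent.Lib.MP_288739_co.Embed

set_option autoImplicit false

namespace Pool.Agent.Results.MP_288739_co.GallaiVertex

/-- `p` is a longest path of `G`: a path with the maximum number of vertices among all paths. -/
def IsLongestPath {V : Type*} (G : SimpleGraph V) {a b : V} (p : G.Walk a b) : Prop :=
  p.IsPath ∧ ∀ (c d : V) (q : G.Walk c d), q.IsPath → q.support.length ≤ p.support.length

/-- `S` is a longest path transversal of `G`: it meets the vertex set of every longest path. -/
def IsTransversal {V : Type*} (G : SimpleGraph V) (S : Finset V) : Prop :=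
  ∀ (a b : V) (p : G.Walk a b), IsLongestPath G p → ∃ v ∈ S, v ∈ p.support

/-- The minimum size of a longest path transversal of `G`. -/
noncomputable def lpt {V : Type*} (G : SimpleGraph V) : ℕ :=
  sInf {n : ℕ | ∃ S : Finset V, S.card = n ∧ IsTransversal G S}

/-- Every finite connected graph with no induced path on five vertices and no induced cycle on
four vertices has a vertex lying on all its longest paths: the minimum size of a longest path
transversal is one. -/
theorem result {V : Type*} [Finite V] (G : SimpleGraph V) (hconn : G.Connected)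
    (hP5 : ¬ (SimpleGraph.pathGraph 5).IsIndContained G)
    (hC4 : ¬ (SimpleGraph.cycleGraph 4).IsIndContained G) :
    lpt G = 1 := by
  have hP := Pool.Agent.Lib.MP_288739_co.p5free_of hP5
  have hC := Pool.Agent.Lib.MP_288739_co.c4free_of hC4
  obtain ⟨v, hv⟩ := Pool.Agent.Lib.MP_288739_co.exists_gallai hconn hP hC
  have hmem : 1 ∈ {n : ℕ | ∃ S : Finset V, S.card = n ∧ IsTransversal G S} := by
    refine ⟨{v}, Finset.card_singleton v, ?_⟩
    intro a b p hp
    exact ⟨v, Finset.mem_singleton_self v,
      hv _ (Pool.Agent.Lib.MP_288739_co.isLongest_support p hp.1 hp.2)⟩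
  unfold lpt
  apply le_antisymm
  · exact Nat.sInf_le hmem
  · rw [Nat.one_le_iff_ne_zero]
    intro h0
    have h1 := Nat.sInf_mem (⟨1, hmem⟩ : {n : ℕ | ∃ S : Finset V, S.card = n ∧
      IsTransversal G S}.Nonempty)
    rw [h0] at h1
    obtain ⟨S, hS, hT⟩ := h1
    have := hconn.nonempty
    obtain ⟨a, b, p, hp, hmax⟩ := Pool.Agent.Lib.MP_288739_co.exists_longest_walk G
    obtain ⟨w, hw, -⟩ := hT a b p ⟨hp, hmax⟩
    rw [Finset.card_eq_zero] at hS
    rw [hS] at hw
    exact absurd hw (Finset.notMem_empty w)

end Pool.Agent.Results.MP_288739_co.GallaiVertex
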